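import Pool.Agent.H974R3.RankLad

set_option autoImplicit false

namespace Pool.Agent.Results.MP_3bd889_lc.LadderClique

/-- Graphs of rank `r > 1` with clique number at most `t + 1`, or without a ladder with `t + 1`
rungs, satisfy `χ(G) ≤ r ^ t`; a ladder with `m` rungs is a pair of sequences `b, y` of length `m`
with `b j ~ y j`, and `b i` adjacent to neither `b j` nor `y j` for `i < j`. In the first case even
`χ(G) ≤ C(⌊r/2⌋ + t, t)`. -/
theorem result (n : ℕ) (G : SimpleGraph (Fin n)) [DecidableRel G.Adj]
    (hr : 1 < (G.adjMatrix ℝ).rank) (t : ℕ) :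
    (G.CliqueFree (t + 2) → G.Colorable (((G.adjMatrix ℝ).rank / 2 + t).choose t)) ∧
    ((G.CliqueFree (t + 2) ∨
      ¬ ∃ b y : Fin (t + 1) → Fin n, (∀ j, G.Adj (b j) (y j)) ∧
        ∀ i j, i < j → ¬ G.Adj (b i) (b j) ∧ ¬ G.Adj (b i) (y j)) →
      Real.log (G.chromaticNumber.toNat : ℝ) ≤ t * Real.log ((G.adjMatrix ℝ).rank : ℝ)) := by
  classical
  set r := (G.adjMatrix ℝ).rank with hrdef
  have hA : G.CliqueFree (t + 2) → G.Colorable ((r / 2 + t).choose t) := by
    intro hc
    apply Pool.Agent.H974R3.RC.color_choose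
    · intro hl
      have := Pool.Agent.H974R3.RC.lad_bound G _ hl
      omega
    · intro Q hQ
      by_contra hcon
      push Not at hcon
      obtain ⟨Q', hQ', hc'⟩ := Finset.exists_subset_card_eq (s := Q) (n := t + 2) (by omega)
      exact hc Q' ⟨hQ.subset (by exact_mod_cast hQ'), hc'⟩
  have key : ∀ N : ℕ, G.Colorable N → N ≤ r ^ t →
      Real.log (G.chromaticNumber.toNat : ℝ) ≤ t * Real.log (r : ℝ) := by
    intro N hcol hN
    have h1 : G.chromaticNumber ≤ N := hcol.chromaticNumber_le
    have h2 : G.chromaticNumber.toNat ≤ N := by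
      have := ENat.toNat_le_toNat h1 (ENat.natCast_ne_top N)
      simpa using this
    rw [← Real.log_pow]
    by_cases h0 : G.chromaticNumber.toNat = 0
    · rw [h0]
      simp only [Nat.cast_zero, Real.log_zero]
      apply Real.log_nonneg
      apply one_le_pow₀
      exact_mod_cast hr.le
    · apply Real.log_le_log
      · have : 0 < G.chromaticNumber.toNat := Nat.pos_of_ne_zero h0
        exact_mod_cast this
      · exact_mod_cast le_trans h2 hN
  refine ⟨hA, ?_⟩
  rintro (hc | hl)
  · apply key _ (hA hc)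
    refine le_trans (Pool.Agent.H974R3.RC.choose_le _ _) ?_
    apply Nat.pow_le_pow_left
    omega
  · have hcol : G.Colorable ((t + (r - 1)).choose (r - 1)) := by
      apply Pool.Agent.H974R3.RC.color_choose
      · intro hlad
        obtain ⟨b, y, _, h2, h3⟩ := Pool.Agent.H974R3.RC.lad_seq G _ _ hlad
        exact hl ⟨b, y, h2, h3⟩
      · intro Q hQ
        by_cases h2 : 2 ≤ Q.card
        · have := Pool.Agent.H974R3.RC.clique_rank G Q hQ h2
          omega
        · omega
    apply key _ hcol
    have e : (t + (r - 1)).choose (r - 1) = ((r - 1) + t).choose t := by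
      rw [Nat.add_comm t (r - 1)]
      exact (Nat.choose_symm_add).symm ▸ rfl
    rw [e]
    refine le_trans (Pool.Agent.H974R3.RC.choose_le _ _) ?_
    apply Nat.pow_le_pow_left
    omega

end Pool.Agent.Results.MP_3bd889_lc.LadderClique
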