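import Pool.Agent.H287R3.LR.ProdD

set_option autoImplicit false

namespace Pool.Agent.Results.MP_3bd889_lc.NonabelianSymmetricGraphs

/-- **Chromatic number and rank for graphs with nonabelian product symmetry.**
Let `H i` (`i ∈ I`, `I` any finite index set) be finite groups, each of which is either isomorphic to
an alternating group `A_m` of some degree `m ≥ 5`, or perfect and such that every nontrivial complex
matrix representation of it has degree `d` with `log₂ |H i| ≤ κ (log₂ d)^s`. If the direct product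
`∏ H i` acts by automorphisms on the finite graph `G` with at most `t` orbits of vertices, then
`log₂ χ(G) ≤ 576 (log₂ r + 1)^8 (κ (log₂ r)^s + 214 (log₂ r + 1)^5) + 2 (log₂ t + 1)`, where `r` is
the real rank of the adjacency matrix. There is no dependence on the number of factors or on the
degrees of the alternating groups. -/
theorem result (I : Type) [Fintype I] (H : I → Type) [∀ i, Group (H i)] [∀ i, Fintype (H i)]
    (κ : ℝ) (hκ : 0 ≤ κ) (s : ℕ)
    (hH : ∀ i, (∃ m, 5 ≤ m ∧ Nonempty (H i ≃* alternatingGroup (Fin m))) ∨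
      (commutator (H i) = ⊤ ∧
        ∀ (d : ℕ) (ρ : H i →* Matrix.GeneralLinearGroup (Fin d) ℂ), ρ ≠ 1 →
          Real.logb 2 (Nat.card (H i)) ≤ κ * (Real.logb 2 d) ^ s))
    (t : ℕ) (V : Type) [Fintype V] [MulAction (∀ i, H i) V] (G : SimpleGraph V)
    [DecidableRel G.Adj]
    (hG : ∀ (g : ∀ i, H i) (u v : V), G.Adj (g • u) (g • v) ↔ G.Adj u v)
    (ht : Nat.card (MulAction.orbitRel.Quotient (∀ i, H i) V) ≤ t) :
    Real.logb 2 (G.chromaticNumber.toNat : ℝ) ≤
      576 * (Real.logb 2 ((G.adjMatrix ℝ).rank : ℝ) + 1) ^ 8 *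
        (κ * (Real.logb 2 ((G.adjMatrix ℝ).rank : ℝ)) ^ s +
          214 * (Real.logb 2 ((G.adjMatrix ℝ).rank : ℝ) + 1) ^ 5) +
        2 * (Real.logb 2 t + 1) := by
  classical
  exact Pool.Agent.H287R3.LR.graph_simple κ hκ s hH G hG t ht

end Pool.Agent.Results.MP_3bd889_lc.NonabelianSymmetricGraphs
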