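import Pool.Agent.H974R3.RankFin

set_option autoImplicit false

namespace Pool.Agent.Results.MP_3bd889_lc.OmittedSubgraph

/-- The graph form of the log-rank conjecture for graphs omitting an induced subgraph: if `G` is
twin-free of rank `r > 1` and some graph `H` on `k` vertices is not an induced subgraph of `G`, then
`log χ(G) ≤ 40 k (log r)^2`. -/
theorem result (n : ℕ) (G : SimpleGraph (Fin n)) [DecidableRel G.Adj]
    (htw : ∀ u v : Fin n, u ≠ v → ¬ G.Adj u v → G.neighborSet u ≠ G.neighborSet v)
    (hr : 1 < (G.adjMatrix ℝ).rank)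
    (k : ℕ) (H : SimpleGraph (Fin k)) (hH : IsEmpty (H ↪g G)) :
    Real.log (G.chromaticNumber.toNat : ℝ) ≤
      40 * (k : ℝ) * (Real.log ((G.adjMatrix ℝ).rank : ℝ)) ^ 2 := by
  classical
  obtain ⟨N, hN0, hcol, hlog⟩ := Pool.Agent.H974R3.RC.main G (by
    intro u v huv
    by_contra hne
    by_cases hadj : G.Adj u v
    · have h1 := (huv u).mpr hadj
      exact G.loopless.irrefl u h1
    · apply htw u v hne hadj
      ext x
      rw [SimpleGraph.mem_neighborSet, SimpleGraph.mem_neighborSet, G.adj_comm u x, G.adj_comm v x]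
      exact huv x) hr k H (by
    rintro ⟨f, hf, hadj⟩
    exact hH.false ⟨⟨f, hf⟩, by
      intro i j
      by_cases hij : i = j
      · subst hij
        exact ⟨fun h => absurd h (G.loopless.irrefl _), fun h => absurd h (H.loopless.irrefl _)⟩
      · exact hadj i j hij⟩)
  refine le_trans ?_ hlog
  have h1 : G.chromaticNumber ≤ N := hcol.chromaticNumber_le
  have h2 : G.chromaticNumber.toNat ≤ N := by
    have := ENat.toNat_le_toNat h1 (ENat.natCast_ne_top N)
    simpa using this
  by_cases h0 : G.chromaticNumber.toNat = 0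
  · rw [h0]
    simp only [Nat.cast_zero, Real.log_zero]
    exact Real.log_natCast_nonneg N
  · apply Real.log_le_log
    · have : 0 < G.chromaticNumber.toNat := Nat.pos_of_ne_zero h0
      exact_mod_cast this
    · exact_mod_cast h2

end Pool.Agent.Results.MP_3bd889_lc.OmittedSubgraph
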