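import Pool.Agent.H287R3.LR.Graph

set_option autoImplicit false

namespace Pool.Agent.Results.MP_3bd889_lc.SymmetricGraphs

/-- **Chromatic number and rank for graphs with large nonabelian symmetry.**
(1) Let the symmetric group `S_n` (`n` arbitrary) act by automorphisms on a finite graph `G` with at
most `t` orbits of vertices. Then `log₂ χ(G) ≤ 1347 (log₂ r + 1)^9 + 2 (log₂ t + 1)`, where `r` is
the real rank of the adjacency matrix.
(2) Let `H i` (`i ∈ I`) be finite perfect groups and `κ ≥ 0`, `s` such that every nontrivial complex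
matrix representation of some `H i` has degree `d` with `log₂ |H i| ≤ κ (log₂ d)^s` (for perfect
groups of order at most `q`: `s = 0`, `κ = log₂ q`). If `∏ H i` acts by automorphisms on `G` with at
most `t` orbits of vertices, then `log₂ χ(G) ≤ 2 (κ (log₂ r)^s + 1) (log₂ r)^4 + 2 (log₂ t + 1)`. -/
theorem result :
    (∀ (n t : ℕ) (V : Type) [Fintype V] [MulAction (Equiv.Perm (Fin n)) V] (G : SimpleGraph V)
      [DecidableRel G.Adj],
      (∀ (g : Equiv.Perm (Fin n)) (u v : V), G.Adj (g • u) (g • v) ↔ G.Adj u v) →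
      Nat.card (MulAction.orbitRel.Quotient (Equiv.Perm (Fin n)) V) ≤ t →
      Real.logb 2 (G.chromaticNumber.toNat : ℝ) ≤
        1347 * (Real.logb 2 ((G.adjMatrix ℝ).rank : ℝ) + 1) ^ 9 + 2 * (Real.logb 2 t + 1)) ∧
    (∀ (I : Type) [Fintype I] (H : I → Type) [∀ i, Group (H i)] [∀ i, Fintype (H i)],
      (∀ i, commutator (H i) = ⊤) → ∀ (κ : ℝ), 0 ≤ κ → ∀ (s : ℕ),
      (∀ (i : I) (d : ℕ) (ρ : H i →* Matrix.GeneralLinearGroup (Fin d) ℂ), ρ ≠ 1 →
        Real.logb 2 (Nat.card (H i)) ≤ κ * (Real.logb 2 d) ^ s) →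
      ∀ (t : ℕ) (V : Type) [Fintype V] [MulAction (∀ i, H i) V] (G : SimpleGraph V)
        [DecidableRel G.Adj],
      (∀ (g : ∀ i, H i) (u v : V), G.Adj (g • u) (g • v) ↔ G.Adj u v) →
      Nat.card (MulAction.orbitRel.Quotient (∀ i, H i) V) ≤ t →
      Real.logb 2 (G.chromaticNumber.toNat : ℝ) ≤
        2 * (κ * (Real.logb 2 ((G.adjMatrix ℝ).rank : ℝ)) ^ s + 1) *
          (Real.logb 2 ((G.adjMatrix ℝ).rank : ℝ)) ^ 4 + 2 * (Real.logb 2 t + 1)) := by
  classical
  constructor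
  · intro n t V _ _ G _ hG ht
    exact Pool.Agent.H287R3.LR.graph_sym n G hG t ht
  · intro I _ H _ _ hperf κ hκ s hrep t V _ _ G _ hG ht
    exact Pool.Agent.H287R3.LR.graph_quasi hperf κ hκ s hrep G hG t ht

end Pool.Agent.Results.MP_3bd889_lc.SymmetricGraphs
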